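import Mathlib

/-!
A nonelementary inclusive variety of idempotent semigroups (in fact of semilattices).

For `r ≥ 1` let `Arc r` be the semilattice (under intersection) of all arcs with at most `r + 1`
points of the cyclic group `ZMod (2 r + 1)`, together with the empty set.  The inclusion used says
that `x₁ x₂ x₃` is one of `x₁ x₂`, `x₂ x₃`, `x₁ x₃`, or is a product of `s + 1` cyclically
consecutive letters of a `(2 s + 1)`-cycle of letters through `x₁, x₂, x₃`, for some `s ≥ 1`.
Every `Arc r` satisfies it, but an ultraproduct of them does not.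
-/

namespace Pool.Agent.Results.MP_a762d4_al.NonelementaryBands

open FirstOrder

universe u

/-- An identical inclusion: a word and a nonempty set of words over the alphabet `ℕ`. -/
structure IdInclusion where
  /-- the left hand word -/
  word : FreeSemigroup ℕ
  /-- the right hand set of words -/
  set : Set (FreeSemigroup ℕ)
  /-- the set is nonempty -/
  nonempty : set.Nonempty

/-- The semigroup `S` satisfies the identical inclusion `i`: for every homomorphism from the free
semigroup over `ℕ` to `S`, the value of the left hand word is the value of some word of the set. -/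
def Satisfies (S : Type u) [Semigroup S] (i : IdInclusion) : Prop :=
  ∀ φ : FreeSemigroup ℕ →ₙ* S, ∃ v ∈ i.set, φ i.word = φ v

/-- A class of semigroups. -/
abbrev SemigroupClass := (S : Type u) → [Semigroup S] → Prop

/-- `K` is an inclusive variety: it consists of exactly the semigroups satisfying every identical
inclusion from some set. -/
def IsInclusiveVariety (K : SemigroupClass.{u}) : Prop :=
  ∃ E : Set IdInclusion, ∀ (S : Type u) [Semigroup S], K S ↔ ∀ i ∈ E, Satisfies S i

/-- The only function symbol of the language of semigroups: one binary operation. -/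
inductive MulFunc : ℕ → Type
  | mul : MulFunc 2

/-- The first-order language with one binary operation and no relation symbols. -/
def mulLang : Language := ⟨MulFunc, fun _ => Empty⟩

/-- A multiplication makes its carrier a structure for `mulLang`. -/
def mulStructure (S : Type u) [Mul S] : mulLang.Structure S where
  funMap := fun {n} (f : MulFunc n) => match n, f with
    | _, MulFunc.mul => fun x => x 0 * x 1
  RelMap := fun {_} (r : Empty) => r.elim

/-- `K` is elementary: among nonempty semigroups, it consists of exactly the models of some set of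
first-order sentences in the language of one binary operation. -/
def IsElementary (K : SemigroupClass.{u}) : Prop :=
  ∃ T : mulLang.Theory, ∀ (S : Type u) [Semigroup S] [Nonempty S],
    K S ↔ @Language.Theory.Model mulLang S (mulStructure S) T

/-! ### Arcs in cyclic groups of odd order -/

/-- Signed displacement from `p` to `q` in `ZMod (2 r + 1)`, a number between `-r` and `r`. -/
def disp {r : ℕ} (p q : ZMod (2 * r + 1)) : ℤ := (q - p).valMinAbs

lemma disp_le {r : ℕ} (p q : ZMod (2 * r + 1)) : disp p q ≤ r ∧ -(r : ℤ) ≤ disp p q := by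
  have h := ZMod.valMinAbs_mem_Ioc (q - p)
  unfold disp
  rw [Set.mem_Ioc] at h
  push_cast at h
  omega

lemma disp_cast {r : ℕ} (p q : ZMod (2 * r + 1)) :
    ((disp p q : ℤ) : ZMod (2 * r + 1)) = q - p := by
  unfold disp
  exact ZMod.coe_valMinAbs _

lemma disp_eq {r : ℕ} {p q : ZMod (2 * r + 1)} {t : ℤ} (h1 : t ≤ r) (h2 : -(r : ℤ) ≤ t)
    (h : (t : ZMod (2 * r + 1)) = q - p) : disp p q = t := by
  unfold disp
  rw [ZMod.valMinAbs_spec]
  refine ⟨h.symm, ?_⟩
  rw [Set.mem_Ioc]
  push_cast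
  omega

lemma disp_swap {r : ℕ} (p q : ZMod (2 * r + 1)) : disp q p = -disp p q := by
  have h := disp_le p q
  apply disp_eq
  · omega
  · omega
  · push_cast
    rw [disp_cast]
    ring

/-- if the numbers are small enough, displacements add up -/
lemma disp_add {r : ℕ} {p q t : ZMod (2 * r + 1)} (h1 : disp p q + disp q t ≤ r)
    (h2 : -(r : ℤ) ≤ disp p q + disp q t) : disp p t = disp p q + disp q t := by
  apply disp_eq h1 h2
  push_cast
  rw [disp_cast, disp_cast]
  ring

/-- Displacements are additive on `A`. -/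
def Flat {r : ℕ} (A : Set (ZMod (2 * r + 1))) : Prop :=
  ∀ p ∈ A, ∀ q ∈ A, ∀ t ∈ A, disp p t = disp p q + disp q t

/-- `A` contains every point between two of its points. -/
def Conv {r : ℕ} (A : Set (ZMod (2 * r + 1))) : Prop :=
  ∀ p ∈ A, ∀ t ∈ A, ∀ q, (0 ≤ disp p q ∧ disp p q ≤ disp p t) ∨
    (disp p t ≤ disp p q ∧ disp p q ≤ 0) → q ∈ A

/-- The arcs with at most `r + 1` points, and the empty set, in `ZMod (2 r + 1)`. -/
def Arc (r : ℕ) : Type := {A : Set (ZMod (2 * r + 1)) // Flat A ∧ Conv A}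

instance (r : ℕ) : CommSemigroup (Arc r) where
  mul A B := ⟨A.1 ∩ B.1,
    fun p hp q hq t ht => A.2.1 p hp.1 q hq.1 t ht.1,
    fun p hp t ht q h => ⟨A.2.2 p hp.1 t ht.1 q h, B.2.2 p hp.2 t ht.2 q h⟩⟩
  mul_assoc _ _ _ := Subtype.ext (Set.inter_assoc _ _ _)
  mul_comm _ _ := Subtype.ext (Set.inter_comm _ _)

lemma arc_mul_val {r : ℕ} (A B : Arc r) : (A * B).1 = A.1 ∩ B.1 := rfl

lemma arc_mul_self {r : ℕ} (A : Arc r) : A * A = A := Subtype.ext (Set.inter_self _)

/-- Above a nonempty arc the semilattice of arcs has breadth at most two. -/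
lemma breadth {r : ℕ} (A B C : Arc r) (h : (A * B * C).1.Nonempty) :
    A * B * C = A * B ∨ A * B * C = B * C ∨ A * B * C = A * C := by
  obtain ⟨o, ⟨hoA, hoB⟩, hoC⟩ := h
  by_contra hcon
  push Not at hcon
  obtain ⟨h1, h2, h3⟩ := hcon
  have e1 : ∃ c, c ∈ A.1 ∧ c ∈ B.1 ∧ c ∉ C.1 := by
    by_contra hc
    push Not at hc
    apply h1
    apply Subtype.ext
    ext q
    constructor
    · intro hq; exact hq.1
    · intro hq; exact ⟨hq, hc q hq.1 hq.2⟩
  have e2 : ∃ a, a ∈ B.1 ∧ a ∈ C.1 ∧ a ∉ A.1 := by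
    by_contra hc
    push Not at hc
    apply h2
    apply Subtype.ext
    ext q
    constructor
    · intro hq; exact ⟨hq.1.2, hq.2⟩
    · intro hq; exact ⟨⟨hc q hq.1 hq.2, hq.1⟩, hq.2⟩
  have e3 : ∃ b, b ∈ A.1 ∧ b ∈ C.1 ∧ b ∉ B.1 := by
    by_contra hc
    push Not at hc
    apply h3
    apply Subtype.ext
    ext q
    constructor
    · intro hq; exact ⟨hq.1.1, hq.2⟩
    · intro hq; exact ⟨⟨hq.1, hc q hq.1 hq.2⟩, hq.2⟩
  obtain ⟨c, hcA, hcB, hcC⟩ := e1
  obtain ⟨a, haB, haC, haA⟩ := e2
  obtain ⟨b, hbA, hbC, hbB⟩ := e3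
  have n1 : ¬ ((0 ≤ disp o c ∧ disp o c ≤ disp o a) ∨ (disp o a ≤ disp o c ∧ disp o c ≤ 0)) :=
    fun h => hcC (C.2.2 o hoC a haC c h)
  have n2 : ¬ ((0 ≤ disp o c ∧ disp o c ≤ disp o b) ∨ (disp o b ≤ disp o c ∧ disp o c ≤ 0)) :=
    fun h => hcC (C.2.2 o hoC b hbC c h)
  have n3 : ¬ ((0 ≤ disp o a ∧ disp o a ≤ disp o b) ∨ (disp o b ≤ disp o a ∧ disp o a ≤ 0)) :=
    fun h => haA (A.2.2 o hoA b hbA a h)
  have n4 : ¬ ((0 ≤ disp o a ∧ disp o a ≤ disp o c) ∨ (disp o c ≤ disp o a ∧ disp o a ≤ 0)) :=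
    fun h => haA (A.2.2 o hoA c hcA a h)
  have n5 : ¬ ((0 ≤ disp o b ∧ disp o b ≤ disp o a) ∨ (disp o a ≤ disp o b ∧ disp o b ≤ 0)) :=
    fun h => hbB (B.2.2 o hoB a haB b h)
  have n6 : ¬ ((0 ≤ disp o b ∧ disp o b ≤ disp o c) ∨ (disp o c ≤ disp o b ∧ disp o b ≤ 0)) :=
    fun h => hbB (B.2.2 o hoB c hcB b h)
  omega

/-- The Helly type step: three points whose displacements sum to zero. -/
lemma middle {r : ℕ} (X Y Z : Arc r) (a b c : ZMod (2 * r + 1))
    (haX : a ∈ X.1) (hcX : c ∈ X.1) (haY : a ∈ Y.1) (hbY : b ∈ Y.1) (hbZ : b ∈ Z.1)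
    (hcZ : c ∈ Z.1) (h : disp a b + disp b c + disp c a = 0) :
    (X.1 ∩ Y.1 ∩ Z.1).Nonempty := by
  have s1 := disp_swap a b
  have s2 := disp_swap b c
  have s3 := disp_swap c a
  have key : (0 ≤ disp a b ∧ 0 ≤ disp b c) ∨ (disp a b ≤ 0 ∧ disp b c ≤ 0) ∨
      (0 ≤ disp b c ∧ 0 ≤ disp c a) ∨ (disp b c ≤ 0 ∧ disp c a ≤ 0) ∨
      (0 ≤ disp c a ∧ 0 ≤ disp a b) ∨ (disp c a ≤ 0 ∧ disp a b ≤ 0) := by omega
  rcases key with h1 | h1 | h1 | h1 | h1 | h1
  · exact ⟨b, ⟨X.2.2 a haX c hcX b (by omega), hbY⟩, hbZ⟩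
  · exact ⟨b, ⟨X.2.2 a haX c hcX b (by omega), hbY⟩, hbZ⟩
  · exact ⟨c, ⟨hcX, Y.2.2 b hbY a haY c (by omega)⟩, hcZ⟩
  · exact ⟨c, ⟨hcX, Y.2.2 b hbY a haY c (by omega)⟩, hcZ⟩
  · exact ⟨a, ⟨haX, haY⟩, Z.2.2 c hcZ b hbZ a (by omega)⟩
  · exact ⟨a, ⟨haX, haY⟩, Z.2.2 c hcZ b hbZ a (by omega)⟩

lemma disp_self {r : ℕ} (p : ZMod (2 * r + 1)) : disp p p = 0 := by
  apply disp_eq
  · omega
  · omega
  · simp

/-- If `s > r`, a `(2 s + 1)`-cycle of arcs in which any `s + 1` consecutive ones meet does not wind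
around the circle, so three arcs of it which pairwise are within a window have a common point. -/
lemma winding {r s : ℕ} (hrs : r < s) (A : ℕ → Arc r) (p : ℕ → ZMod (2 * r + 1))
    (hA : ∀ i, A (i + (2 * s + 1)) = A i) (hp : ∀ i, p (i + (2 * s + 1)) = p i)
    (hmem : ∀ i j, j ≤ s → p i ∈ (A (i + j)).1) :
    ((A 0).1 ∩ (A s).1 ∩ (A (s + 1)).1).Nonempty := by
  set d : ℕ → ℤ := fun i => disp (p i) (p (i + 1)) with hd
  have hsum : ∀ i t, t ≤ s → disp (p i) (p (i + t)) = ∑ j ∈ Finset.range t, d (i + j) := by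
    intro i t
    induction t with
    | zero => intro _; simp [disp_self]
    | succ t ih =>
      intro ht
      rw [Finset.sum_range_succ, ← ih (by omega)]
      have m1 : p i ∈ (A (i + s)).1 := hmem i s le_rfl
      have m2 : p (i + t) ∈ (A (i + s)).1 := by
        have := hmem (i + t) (s - t) (by omega)
        rwa [show i + t + (s - t) = i + s by omega] at this
      have m3 : p (i + (t + 1)) ∈ (A (i + s)).1 := by
        have := hmem (i + (t + 1)) (s - (t + 1)) (by omega)
        rwa [show i + (t + 1) + (s - (t + 1)) = i + s by omega] at this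
      rw [(A (i + s)).2.1 _ m1 _ m2 _ m3]
      rfl
  have hdper : ∀ i, d (i + (2 * s + 1)) = d i := by
    intro i
    simp only [hd]
    rw [hp i, show i + (2 * s + 1) + 1 = (i + 1) + (2 * s + 1) by ring, hp (i + 1)]
  set D : ℤ := ∑ i ∈ Finset.range (2 * s + 1), d i with hD
  have hshift : ∀ j, ∑ i ∈ Finset.range (2 * s + 1), d (i + j) = D := by
    intro j
    induction j with
    | zero => simp [hD]
    | succ j ih =>
      have e1 := Finset.sum_range_succ (fun i => d (i + j)) (2 * s + 1)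
      have e2 := Finset.sum_range_succ' (fun i => d (i + j)) (2 * s + 1)
      have e3 : d (2 * s + 1 + j) = d (0 + j) := by
        rw [show 2 * s + 1 + j = j + (2 * s + 1) by ring, hdper j, zero_add]
      have e4 : ∑ i ∈ Finset.range (2 * s + 1), d (i + (j + 1)) =
          ∑ i ∈ Finset.range (2 * s + 1), d (i + 1 + j) := by
        apply Finset.sum_congr rfl
        intro i _
        rw [show i + (j + 1) = i + 1 + j by ring]
      rw [e4]
      linarith
  have hsD : (s : ℤ) * D = ∑ i ∈ Finset.range (2 * s + 1), disp (p i) (p (i + s)) := by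
    calc (s : ℤ) * D = ∑ j ∈ Finset.range s, D := by simp
      _ = ∑ j ∈ Finset.range s, ∑ i ∈ Finset.range (2 * s + 1), d (i + j) :=
          Finset.sum_congr rfl (fun j _ => (hshift j).symm)
      _ = ∑ i ∈ Finset.range (2 * s + 1), ∑ j ∈ Finset.range s, d (i + j) := Finset.sum_comm
      _ = ∑ i ∈ Finset.range (2 * s + 1), disp (p i) (p (i + s)) :=
          Finset.sum_congr rfl (fun i _ => (hsum i s le_rfl).symm)
  have hup : (s : ℤ) * D ≤ (2 * s + 1) * r := by
    rw [hsD]
    calc ∑ i ∈ Finset.range (2 * s + 1), disp (p i) (p (i + s))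
        ≤ ∑ i ∈ Finset.range (2 * s + 1), (r : ℤ) := Finset.sum_le_sum (fun i _ => (disp_le _ _).1)
      _ = (2 * s + 1) * r := by simp
  have hlo : -((2 * s + 1) * r : ℤ) ≤ (s : ℤ) * D := by
    rw [hsD]
    calc -((2 * s + 1) * r : ℤ) = ∑ i ∈ Finset.range (2 * s + 1), (-(r : ℤ)) := by simp
      _ ≤ ∑ i ∈ Finset.range (2 * s + 1), disp (p i) (p (i + s)) :=
          Finset.sum_le_sum (fun i _ => (disp_le _ _).2)
  have hcast : ((D : ℤ) : ZMod (2 * r + 1)) = 0 := by
    rw [hD]
    push_cast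
    have : ∀ i, ((d i : ℤ) : ZMod (2 * r + 1)) = p (i + 1) - p i := fun i => disp_cast _ _
    simp only [this]
    rw [Finset.sum_range_sub]
    have := hp 0
    rw [zero_add] at this
    rw [this, sub_self]
  have hdvd : ((2 * r + 1 : ℕ) : ℤ) ∣ D := (ZMod.intCast_zmod_eq_zero_iff_dvd D (2 * r + 1)).1 hcast
  have hD0 : D = 0 := by
    obtain ⟨e, he⟩ := hdvd
    push_cast at he
    have hrs' : (r : ℤ) < s := by exact_mod_cast hrs
    have hr0 : (0 : ℤ) ≤ r := by positivity
    have h1 : e < 1 := by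
      by_contra hc
      push Not at hc
      nlinarith [mul_nonneg (show (0:ℤ) ≤ s by positivity) (show (0:ℤ) ≤ 2 * r + 1 by positivity)]
    have h2 : -1 < e := by
      by_contra hc
      push Not at hc
      nlinarith [mul_nonneg (show (0:ℤ) ≤ s by positivity) (show (0:ℤ) ≤ 2 * r + 1 by positivity)]
    have : e = 0 := by omega
    rw [he, this, mul_zero]
  have hA0 : A (2 * s + 1) = A 0 := by simpa using hA 0
  have hp0 : p (2 * s + 1) = p 0 := by simpa using hp 0
  apply middle (A 0) (A s) (A (s + 1)) (p 0) (p s) (p (s + 1))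
  · simpa using hmem 0 0 (Nat.zero_le _)
  · have := hmem (s + 1) s le_rfl
    rwa [show s + 1 + s = 2 * s + 1 by ring, hA0] at this
  · simpa using hmem 0 s le_rfl
  · simpa using hmem s 0 (Nat.zero_le _)
  · simpa using hmem s 1 (by omega)
  · simpa using hmem (s + 1) 0 (Nat.zero_le _)
  · have f1 := hsum 0 s le_rfl
    have f2 := hsum (s + 1) s le_rfl
    rw [show s + 1 + s = 2 * s + 1 by ring, hp0] at f2
    rw [zero_add] at f1
    have f3 : D = (∑ j ∈ Finset.range s, d j + d s) + ∑ j ∈ Finset.range s, d (s + 1 + j) := by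
      rw [hD, show 2 * s + 1 = (s + 1) + s by ring, Finset.sum_range_add, Finset.sum_range_succ]
    have f4 : d s = disp (p s) (p (s + 1)) := rfl
    simp only [zero_add] at f1
    rw [f1, f2, ← f4]
    linarith

/-! ### The words -/

lemma mem_eval {r : ℕ} (φ : FreeSemigroup ℕ →ₙ* Arc r) (q : ZMod (2 * r + 1))
    (w : FreeSemigroup ℕ) :
    q ∈ (φ w).1 ↔ ∀ a ∈ w.head :: w.tail, q ∈ (φ (FreeSemigroup.of a)).1 := by
  induction w using FreeSemigroup.recOnMul with
  | ih1 x => simp
  | ih2 x y h1 h2 =>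
    rw [map_mul, arc_mul_val, Set.mem_inter_iff, h2]
    simp

/-- The letters of the `s`-th cycle, at position `i ≤ 2 s`; the positions `0`, `s`, `s + 1` carry
the three letters shared by all cycles. -/
def letter (s i : ℕ) : ℕ :=
  if i = 0 then 0 else if i = s then 1 else if i = s + 1 then 2 else 3 + Nat.pair s i

/-- The product of `s + 1` cyclically consecutive letters of the `s`-th cycle, starting at `i`. -/
def window (s i : ℕ) : FreeSemigroup ℕ :=
  ⟨letter s (i % (2 * s + 1)),
    (List.range s).map fun j => letter s ((i + (j + 1)) % (2 * s + 1))⟩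

lemma mem_window {s i a : ℕ} :
    a ∈ (window s i).head :: (window s i).tail ↔
      ∃ j, j ≤ s ∧ a = letter s ((i + j) % (2 * s + 1)) := by
  simp only [window, List.mem_cons, List.mem_map, List.mem_range]
  constructor
  · rintro (h | ⟨j, hj, h⟩)
    · exact ⟨0, Nat.zero_le _, by simpa using h⟩
    · exact ⟨j + 1, hj, h.symm⟩
  · rintro ⟨j, hj, h⟩
    rcases Nat.eq_zero_or_pos j with h0 | h0
    · left; simpa [h0] using h
    · right
      exact ⟨j - 1, by omega, by rw [h, show j - 1 + 1 = j by omega]⟩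

/-- The word `x₁ x₂ x₃`. -/
def theWord : FreeSemigroup ℕ := FreeSemigroup.of 0 * FreeSemigroup.of 1 * FreeSemigroup.of 2

/-- The inclusion `x₁ x₂ x₃ ∈ {x₁ x₂, x₂ x₃, x₁ x₃} ∪ {windows}`. -/
def mainInclusion : IdInclusion where
  word := theWord
  set := {w | w = FreeSemigroup.of 0 * FreeSemigroup.of 1 ∨
    w = FreeSemigroup.of 1 * FreeSemigroup.of 2 ∨ w = FreeSemigroup.of 0 * FreeSemigroup.of 2 ∨
    ∃ s i, 1 ≤ s ∧ w = window s i}
  nonempty := ⟨_, Or.inl rfl⟩

/-- Every semilattice of arcs satisfies the main inclusion. -/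
lemma arc_satisfies (r : ℕ) (φ : FreeSemigroup ℕ →ₙ* Arc r) :
    ∃ v ∈ mainInclusion.set, φ theWord = φ v := by
  by_cases hne : (φ theWord).1.Nonempty
  · have hb := breadth (φ (FreeSemigroup.of 0)) (φ (FreeSemigroup.of 1)) (φ (FreeSemigroup.of 2))
      (by simpa [theWord] using hne)
    rcases hb with hb | hb | hb
    · exact ⟨_, Or.inl rfl, by simpa [theWord] using hb⟩
    · exact ⟨_, Or.inr (Or.inl rfl), by simpa [theWord] using hb⟩
    · exact ⟨_, Or.inr (Or.inr (Or.inl rfl)), by simpa [theWord] using hb⟩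
  · by_contra hcon
    push Not at hcon
    have hwin : ∀ i, ∃ q, q ∈ (φ (window (r + 1) i)).1 := by
      intro i
      by_contra hc
      apply hcon (window (r + 1) i) (Or.inr (Or.inr (Or.inr ⟨r + 1, i, by omega, rfl⟩)))
      apply Subtype.ext
      rw [Set.not_nonempty_iff_eq_empty.1 hne]
      symm
      apply Set.not_nonempty_iff_eq_empty.1
      rintro ⟨q, hq⟩
      exact hc ⟨q, hq⟩
    choose p hp using hwin
    have hw := winding (r := r) (s := r + 1) (Nat.lt_succ_self r)
      (fun i => φ (FreeSemigroup.of (letter (r + 1) (i % (2 * (r + 1) + 1)))))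
      (fun i => p (i % (2 * (r + 1) + 1)))
      (fun i => by simp only [Nat.add_mod_right])
      (fun i => by simp only [Nat.add_mod_right])
      (fun i j hj => by
        have := (mem_eval φ _ _).1 (hp (i % (2 * (r + 1) + 1)))
          (letter (r + 1) ((i % (2 * (r + 1) + 1) + j) % (2 * (r + 1) + 1)))
          (mem_window.2 ⟨j, hj, rfl⟩)
        simpa only [Nat.mod_add_mod] using this)
    apply hne
    obtain ⟨q, ⟨h0, h1⟩, h2⟩ := hw
    refine ⟨q, ?_⟩
    have e0 : letter (r + 1) (0 % (2 * (r + 1) + 1)) = 0 := by simp [letter]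
    have e1 : letter (r + 1) ((r + 1) % (2 * (r + 1) + 1)) = 1 := by
      rw [Nat.mod_eq_of_lt (by omega)]; simp [letter]
    have e2 : letter (r + 1) ((r + 1 + 1) % (2 * (r + 1) + 1)) = 2 := by
      rw [Nat.mod_eq_of_lt (by omega)]; simp [letter]
    simp only [e0] at h0
    simp only [e1] at h1
    simp only [e2] at h2
    rw [theWord, map_mul, map_mul, arc_mul_val, arc_mul_val]
    exact ⟨⟨h0, h1⟩, h2⟩

/-! ### The violating assignments -/

/-- The arc of `r + 1` points ending at `e`. -/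
def arcEnd (r e : ℕ) : Arc r := by
  refine ⟨{q | ∃ t : ℕ, t ≤ r ∧ q = (e : ZMod (2 * r + 1)) - t}, ?_, ?_⟩
  · rintro p ⟨a, ha, rfl⟩ q ⟨b, hb, rfl⟩ t ⟨c, hc, rfl⟩
    have h1 : disp ((e : ZMod (2 * r + 1)) - (a : ZMod (2 * r + 1))) ((e : ZMod (2 * r + 1)) - (b : ZMod (2 * r + 1))) = (a : ℤ) - b := by
      apply disp_eq
      · omega
      · omega
      · push_cast; ring
    have h2 : disp ((e : ZMod (2 * r + 1)) - (b : ZMod (2 * r + 1))) ((e : ZMod (2 * r + 1)) - (c : ZMod (2 * r + 1))) = (b : ℤ) - c := by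
      apply disp_eq
      · omega
      · omega
      · push_cast; ring
    have h3 : disp ((e : ZMod (2 * r + 1)) - (a : ZMod (2 * r + 1))) ((e : ZMod (2 * r + 1)) - (c : ZMod (2 * r + 1))) = (a : ℤ) - c := by
      apply disp_eq
      · omega
      · omega
      · push_cast; ring
    rw [h1, h2, h3]; ring
  · rintro p ⟨a, ha, rfl⟩ t ⟨c, hc, rfl⟩ q h
    have h3 : disp ((e : ZMod (2 * r + 1)) - (a : ZMod (2 * r + 1))) ((e : ZMod (2 * r + 1)) - (c : ZMod (2 * r + 1))) = (a : ℤ) - c := by
      apply disp_eq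
      · omega
      · omega
      · push_cast; ring
    rw [h3] at h
    have hq := disp_cast ((e : ZMod (2 * r + 1)) - (a : ZMod (2 * r + 1))) q
    set x := disp ((e : ZMod (2 * r + 1)) - (a : ZMod (2 * r + 1))) q with hx
    have hnn : 0 ≤ (a : ℤ) - x := by omega
    refine ⟨((a : ℤ) - x).toNat, by omega, ?_⟩
    have : ((((a : ℤ) - x).toNat : ℕ) : ZMod (2 * r + 1)) = ((((a : ℤ) - x : ℤ)) : ZMod (2 * r + 1)) := by
      rw [← Int.toNat_of_nonneg hnn]
      simp
    rw [this]
    push_cast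
    rw [hq]
    ring

lemma mem_arcEnd {r e : ℕ} {q : ZMod (2 * r + 1)} :
    q ∈ (arcEnd r e).1 ↔ ∃ t : ℕ, t ≤ r ∧ q = (e : ZMod (2 * r + 1)) - t := Iff.rfl

/-- The end point of the arc at position `i` of the `s`-th cycle. -/
def endPt (r s i : ℕ) : ℕ := if i < s then i else r + i - s

/-- The violating assignment of arcs to the letters. -/
def badAssign (r : ℕ) (a : ℕ) : Arc r :=
  if a = 0 then arcEnd r 0 else if a = 1 then arcEnd r r else if a = 2 then arcEnd r (r + 1) else
    arcEnd r (endPt r (Nat.unpair (a - 3)).1 (Nat.unpair (a - 3)).2)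

lemma badAssign_letter {r s i : ℕ} (hs : 1 ≤ s) :
    badAssign r (letter s i) = arcEnd r (endPt r s i) := by
  unfold letter
  split_ifs with h0 h1 h2
  · subst h0
    have : endPt r s 0 = 0 := by unfold endPt; rw [if_pos (by omega)]
    rw [this]; rfl
  · subst h1
    have : endPt r i i = r := by unfold endPt; rw [if_neg (by omega)]; omega
    rw [this]; rfl
  · subst h2
    have : endPt r s (s + 1) = r + 1 := by unfold endPt; rw [if_neg (by omega)]; omega
    rw [this]; rfl
  · unfold badAssign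
    rw [if_neg (by omega), if_neg (by omega), if_neg (by omega)]
    rw [show 3 + Nat.pair s i - 3 = Nat.pair s i by omega, Nat.unpair_pair]

lemma bad_window {r s : ℕ} (hs : 1 ≤ s) (hsr : s ≤ r) (i : ℕ) :
    (FreeSemigroup.lift (badAssign r) (window s i)).1.Nonempty := by
  have hlt : i % (2 * s + 1) < 2 * s + 1 := Nat.mod_lt _ (by omega)
  refine ⟨(((if i % (2 * s + 1) ≤ s then i % (2 * s + 1) else r + i % (2 * s + 1) - s : ℕ)) :
    ZMod (2 * r + 1)), ?_⟩
  rw [mem_eval]
  intro a ha
  obtain ⟨j, hj, rfl⟩ := mem_window.1 ha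
  rw [FreeSemigroup.lift_of, badAssign_letter hs, mem_arcEnd, ← Nat.mod_add_mod]
  generalize i % (2 * s + 1) = k at hlt
  by_cases h1 : k ≤ s
  · rw [if_pos h1, Nat.mod_eq_of_lt (show k + j < 2 * s + 1 by omega)]
    by_cases h2 : k + j < s
    · refine ⟨j, by omega, ?_⟩
      rw [endPt, if_pos h2]
      push_cast; ring
    · refine ⟨r + j - s, by omega, ?_⟩
      rw [endPt, if_neg h2, show r + (k + j) - s = k + (r + j - s) by omega]
      push_cast; ring
  · rw [if_neg h1]
    by_cases h2 : k + j < 2 * s + 1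
    · rw [Nat.mod_eq_of_lt h2, endPt, if_neg (by omega)]
      refine ⟨j, by omega, ?_⟩
      rw [show r + (k + j) - s = (r + k - s) + j by omega]
      push_cast; ring
    · have e : (k + j) % (2 * s + 1) = k + j - (2 * s + 1) := by
        rw [Nat.mod_eq_sub_mod (by omega), Nat.mod_eq_of_lt (by omega)]
      rw [e, endPt, if_pos (by omega)]
      refine ⟨r + j - s, by omega, ?_⟩
      have h3 : (((r + k - s) + (r + j - s) : ℕ) : ZMod (2 * r + 1)) =
          ((k + j - (2 * s + 1) + (2 * r + 1) : ℕ) : ZMod (2 * r + 1)) := by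
        congr 1; omega
      rw [eq_sub_iff_add_eq, ← Nat.cast_add, h3]
      push_cast
      have h4 : (2 * (r : ZMod (2 * r + 1)) + 1) = 0 := by
        have := ZMod.natCast_self (2 * r + 1)
        push_cast at this
        exact this
      rw [h4, add_zero]

lemma two_r_one (r : ℕ) : (2 * (r : ZMod (2 * r + 1)) + 1) = 0 := by
  have := ZMod.natCast_self (2 * r + 1)
  push_cast at this
  exact this

lemma bad_word {r : ℕ} (hr : 1 ≤ r) :
    ¬ (FreeSemigroup.lift (badAssign r) theWord).1.Nonempty := by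
  rintro ⟨q, hq⟩
  rw [theWord, map_mul, map_mul, FreeSemigroup.lift_of, FreeSemigroup.lift_of,
    FreeSemigroup.lift_of] at hq
  obtain ⟨⟨⟨a, ha, ea⟩, ⟨b, hb, eb⟩⟩, ⟨c, hc, ec⟩⟩ := hq
  have h1 : (((r + a : ℕ)) : ZMod (2 * r + 1)) = ((b : ℕ) : ZMod (2 * r + 1)) := by
    have := ea.symm.trans eb
    push_cast at this ⊢
    linear_combination -this
  have h2 : (((r + 1 + a : ℕ)) : ZMod (2 * r + 1)) = ((c : ℕ) : ZMod (2 * r + 1)) := by
    have := ea.symm.trans ec
    push_cast at this ⊢
    linear_combination -this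
  rw [ZMod.natCast_eq_natCast_iff', Nat.mod_eq_of_lt (show r + a < 2 * r + 1 by omega),
    Nat.mod_eq_of_lt (show b < 2 * r + 1 by omega)] at h1
  rw [ZMod.natCast_eq_natCast_iff', Nat.mod_eq_of_lt (show r + 1 + a < 2 * r + 1 by omega),
    Nat.mod_eq_of_lt (show c < 2 * r + 1 by omega)] at h2
  omega

lemma bad_pairs {r : ℕ} (hr : 1 ≤ r) :
    (FreeSemigroup.lift (badAssign r) (FreeSemigroup.of 0 * FreeSemigroup.of 1)).1.Nonempty ∧
    (FreeSemigroup.lift (badAssign r) (FreeSemigroup.of 1 * FreeSemigroup.of 2)).1.Nonempty ∧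
    (FreeSemigroup.lift (badAssign r) (FreeSemigroup.of 0 * FreeSemigroup.of 2)).1.Nonempty := by
  simp only [map_mul, FreeSemigroup.lift_of]
  refine ⟨⟨0, ⟨0, by omega, by simp⟩, ⟨r, le_rfl, by simp⟩⟩,
    ⟨r, ⟨0, by omega, by simp⟩, ⟨1, hr, by push_cast; ring⟩⟩,
    ⟨-(r : ZMod (2 * r + 1)), ⟨r, le_rfl, by simp⟩, ⟨0, by omega, ?_⟩⟩⟩
  push_cast
  linear_combination -(two_r_one r)

lemma bad_ne {r : ℕ} (hr : 1 ≤ r) {v : FreeSemigroup ℕ}
    (hv : v = FreeSemigroup.of 0 * FreeSemigroup.of 1 ∨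
    v = FreeSemigroup.of 1 * FreeSemigroup.of 2 ∨ v = FreeSemigroup.of 0 * FreeSemigroup.of 2 ∨
    ∃ s i, 1 ≤ s ∧ s ≤ r ∧ v = window s i) :
    FreeSemigroup.lift (badAssign r) theWord ≠ FreeSemigroup.lift (badAssign r) v := by
  intro h
  apply bad_word hr
  rw [h]
  rcases hv with rfl | rfl | rfl | ⟨s, i, h1, h2, rfl⟩
  · exact (bad_pairs hr).1
  · exact (bad_pairs hr).2.1
  · exact (bad_pairs hr).2.2
  · exact bad_window h1 h2 i

/-! ### Ultraproducts -/

section Ultra

open Filter

variable (M : ℕ → Type u) [∀ n, Semigroup (M n)] (F : Ultrafilter ℕ)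

/-- The class in the ultraproduct of a sequence. -/
def cls (f : ∀ n, M n) : (F : Filter ℕ).Product M := (f : (F : Filter ℕ).Product M)

lemma cls_surj (a : (F : Filter ℕ).Product M) : ∃ f, a = cls M F f := by
  obtain ⟨f, hf⟩ := Quotient.exists_rep a
  exact ⟨f, hf.symm⟩

lemma cls_eq {f g : ∀ n, M n} (h : cls M F f = cls M F g) : ∀ᶠ n in (F : Filter ℕ), f n = g n :=
  Quotient.exact h

/-- The multiplication on an ultraproduct of semigroups coming from the ultraproduct structure. -/
def ultraOp (a b : (F : Filter ℕ).Product M) : (F : Filter ℕ).Product M :=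
  letI : ∀ n, mulLang.Structure (M n) := fun n => mulStructure (M n)
  Language.Structure.funMap (L := mulLang) (n := 2) MulFunc.mul ![a, b]

lemma ultraOp_cls (f g : ∀ n, M n) :
    ultraOp M F (cls M F f) (cls M F g) = cls M F (fun n => f n * g n) := by
  letI : ∀ n, mulLang.Structure (M n) := fun n => mulStructure (M n)
  have h := Language.Ultraproduct.funMap_cast (M := M) (u := F) (L := mulLang) (n := 2)
    MulFunc.mul ![f, g]
  have e : (fun i => ((![f, g] : Fin 2 → ∀ n, M n) i : (F : Filter ℕ).Product M)) =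
      ![cls M F f, cls M F g] := by
    funext i
    fin_cases i <;> rfl
  rw [e] at h
  exact h

/-- The ultraproduct of semigroups is a semigroup. -/
def ultraSemigroup : Semigroup ((F : Filter ℕ).Product M) where
  mul := ultraOp M F
  mul_assoc a b c := by
    obtain ⟨f, rfl⟩ := cls_surj M F a
    obtain ⟨g, rfl⟩ := cls_surj M F b
    obtain ⟨h, rfl⟩ := cls_surj M F c
    change ultraOp M F (ultraOp M F _ _) _ = ultraOp M F _ (ultraOp M F _ _)
    rw [ultraOp_cls, ultraOp_cls, ultraOp_cls, ultraOp_cls]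
    simp only [mul_assoc]

lemma ultra_structure :
    letI : ∀ n, mulLang.Structure (M n) := fun n => mulStructure (M n)
    @mulStructure _ (ultraSemigroup M F).toMul =
      (Language.Ultraproduct.structure : mulLang.Structure ((F : Filter ℕ).Product M)) := by
  letI : ∀ n, mulLang.Structure (M n) := fun n => mulStructure (M n)
  apply Language.Structure.ext
  · funext n f x
    cases f
    change ultraOp M F (x 0) (x 1) = _
    unfold ultraOp
    congr 1
    funext i
    fin_cases i <;> rfl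
  · funext n r
    exact r.elim

/-- The ultraproduct of models of a theory is a model. -/
lemma ultra_model [∀ n, Nonempty (M n)] (T : mulLang.Theory)
    (h : ∀ n, @Language.Theory.Model mulLang (M n) (mulStructure (M n)) T) :
    @Language.Theory.Model mulLang ((F : Filter ℕ).Product M)
      (@mulStructure _ (ultraSemigroup M F).toMul) T := by
  rw [ultra_structure]
  letI : ∀ n, mulLang.Structure (M n) := fun n => mulStructure (M n)
  refine ⟨fun φ hφ => ?_⟩
  rw [Language.Ultraproduct.sentence_realize]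
  exact Filter.Eventually.of_forall fun n => (h n).realize_of_mem φ hφ

end Ultra

/-- The inclusion `x ∈ {x x}`. -/
def idemInclusion : IdInclusion where
  word := FreeSemigroup.of 0
  set := {FreeSemigroup.of 0 * FreeSemigroup.of 0}
  nonempty := ⟨_, rfl⟩

/-- The inclusion `x y ∈ {y x}`. -/
def commInclusion : IdInclusion where
  word := FreeSemigroup.of 0 * FreeSemigroup.of 1
  set := {FreeSemigroup.of 1 * FreeSemigroup.of 0}
  nonempty := ⟨_, rfl⟩

lemma idem_of_satisfies (S : Type u) [Semigroup S] (h : Satisfies S idemInclusion) (x : S) :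
    x * x = x := by
  obtain ⟨v, hv, e⟩ := h (FreeSemigroup.lift fun _ => x)
  rw [show v = _ from hv] at e
  simpa [idemInclusion] using e.symm

/-- An arc semilattice placed in an arbitrary universe. -/
abbrev UArc (r : ℕ) : Type u := ULift.{u} (Arc r)

lemma uarc_satisfies (r : ℕ) (i : IdInclusion)
    (h : ∀ φ : FreeSemigroup ℕ →ₙ* Arc r, ∃ v ∈ i.set, φ i.word = φ v) :
    Satisfies (UArc.{u} r) i := by
  intro φ
  obtain ⟨v, hv, e⟩ := h ((MulEquiv.ulift (α := Arc r)).toMulHom.comp φ)
  exact ⟨v, hv, (MulEquiv.ulift (α := Arc r)).injective e⟩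

/-- **There is a nonelementary inclusive variety of idempotent semigroups.** -/
theorem result : ∃ K : SemigroupClass.{u}, IsInclusiveVariety K ∧
    (∀ (S : Type u) [Semigroup S], K S → ∀ x : S, x * x = x) ∧ ¬ IsElementary K := by
  refine ⟨fun S _ => ∀ i ∈ ({idemInclusion, commInclusion, mainInclusion} : Set IdInclusion),
    Satisfies S i, ⟨_, fun S _ => Iff.rfl⟩, fun S _ h x =>
      idem_of_satisfies S (h _ (by simp)) x, ?_⟩
  rintro ⟨T, hT⟩
  let F : Ultrafilter ℕ := Filter.hyperfilter ℕ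
  let M : ℕ → Type u := fun n => UArc.{u} (n + 1)
  haveI : ∀ n, Nonempty (M n) := fun n => ⟨ULift.up (arcEnd (n + 1) 0)⟩
  have hM : ∀ n, @Language.Theory.Model mulLang (M n) (mulStructure (M n)) T := by
    intro n
    rw [← hT (M n)]
    intro i hi
    simp only [Set.mem_insert_iff, Set.mem_singleton_iff] at hi
    rcases hi with rfl | rfl | rfl
    · apply uarc_satisfies
      intro φ
      exact ⟨_, rfl, by simp [idemInclusion, arc_mul_self]⟩
    · apply uarc_satisfies
      intro φ
      exact ⟨_, rfl, by simp only [commInclusion, map_mul]; exact mul_comm _ _⟩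
    · apply uarc_satisfies
      exact arc_satisfies (n + 1)
  have hP := ultra_model M F T hM
  letI sg : Semigroup ((F : Filter ℕ).Product M) := ultraSemigroup M F
  haveI : Nonempty ((F : Filter ℕ).Product M) := ⟨cls M F fun n => ULift.up (arcEnd (n + 1) 0)⟩
  have hsat := (hT ((F : Filter ℕ).Product M)).2 hP mainInclusion (by simp)
  let Φ : FreeSemigroup ℕ →ₙ* (F : Filter ℕ).Product M :=
    FreeSemigroup.lift fun a => cls M F fun n => ULift.up (badAssign (n + 1) a)
  have hΦ : ∀ w, Φ w = cls M F fun n => ULift.up (FreeSemigroup.lift (badAssign (n + 1)) w) := by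
    intro w
    induction w using FreeSemigroup.recOnMul with
    | ih1 x => simp [Φ]
    | ih2 x y h1 h2 =>
      rw [map_mul, h1, h2]
      change ultraOp M F _ _ = _
      rw [ultraOp_cls]
      simp only [map_mul]
      rfl
  obtain ⟨v, hv, e⟩ := hsat Φ
  rw [hΦ, hΦ] at e
  have e1 := cls_eq M F e
  have hbig : ∀ N : ℕ, ∀ᶠ n in (F : Filter ℕ), N ≤ n := fun N =>
    Nat.hyperfilter_le_atTop (Filter.eventually_ge_atTop N)
  have key : ∃ N, ∀ n, N ≤ n → FreeSemigroup.lift (badAssign (n + 1)) theWord ≠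
      FreeSemigroup.lift (badAssign (n + 1)) v := by
    rcases hv with h | h | h | ⟨s, i, h1, h⟩
    · exact ⟨0, fun n _ => bad_ne (by omega) (Or.inl h)⟩
    · exact ⟨0, fun n _ => bad_ne (by omega) (Or.inr (Or.inl h))⟩
    · exact ⟨0, fun n _ => bad_ne (by omega) (Or.inr (Or.inr (Or.inl h)))⟩
    · exact ⟨s, fun n hn => bad_ne (by omega)
        (Or.inr (Or.inr (Or.inr ⟨s, i, h1, by omega, h⟩)))⟩
  obtain ⟨N, hN⟩ := key
  obtain ⟨n, h1, h2⟩ := (e1.and (hbig N)).exists
  exact hN n h2 (ULift.up_injective h1)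

end Pool.Agent.Results.MP_a762d4_al.NonelementaryBands
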